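import Mathlib
import Pool.Agent.Y729.CAS.Fill

/-!
# Bases of order `h` with second-order precise growth `λ n ^ h + o(n ^ (h - 1))` for every small `λ`

Cassels asked for an asymptotic basis of order `h` with `a n = λ n ^ h + o(n ^ (h - 1))` for some
`λ > 0`; the starting result `PreciseBases` constructs one, for one value of `λ`. Here we show that
such bases exist for EVERY real `λ` in an interval `(0, c]`, `c = c(h) > 0` (by counting, `λ ≤ 1 / h!`
is necessary). This is the analogue, at second-order precision, of Nathanson's theorem that the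
admissible `λ` of the first-order problem `a n ∼ λ n ^ h` form an interval `(0, c)` or `(0, c]`. At
first order one may pass from `λ` to a smaller `λ'` by adding elements; at second order this is
impossible, as every element has to stay within `o(n ^ (h - 1))`, a vanishing part of the gap to its
neighbours, of the prescribed position.

Proof. The local construction of the starting result (perturbations `b n` of `λ n ^ h`, `n ≍ M`,
such that all integers in `[λ M ^ h, 2 ^ h λ M ^ h]` are sums of `h` of them) depends on a parameter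
`s` of size about `P M ^ (h - 1) / η`, and `θ = λ / s` has to satisfy `η ≤ θ M ^ (h - 1) ≤ 2 η`; we
show that this leaves room for all `λ` in an interval `[L, 5 L / 4]`. The basis for such a `λ` uses
for large numbers only elements with large indices. Then a basis for `λ` gives one for `λ / m ^ h`:
its elements are given the indices divisible by `m`, the other positions are filled by the integral
parts of `λ n ^ h / m ^ h`, and finitely many terms are changed. The intervals
`[L / m ^ h, 5 L / (4 m ^ h)]` overlap for large `m`.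
-/

set_option autoImplicit false

open Finset

namespace Pool.Agent.Results.MP_1cb037_nt.AllSmallLambda

/-- `A` is an asymptotic basis of order `h`: there is `n₀` such that every integer `n ≥ n₀` is a
sum of `h` elements of `A` (repetitions allowed). -/
def IsAsymptoticBasis (h : ℕ) (A : Set ℕ) : Prop :=
  ∃ n₀ : ℕ, ∀ n : ℕ, n₀ ≤ n → ∃ f : Fin h → ℕ, (∀ i, f i ∈ A) ∧ n = ∑ i, f i

/-- `a 1 < a 2 < a 3 < ⋯` are all the elements of `A` in increasing order, so that `a n` is the
`n`-th smallest element of `A` (the value `a 0` is irrelevant). -/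
def IsEnumeration (A : Set ℕ) (a : ℕ → ℕ) : Prop :=
  (∀ n, 1 ≤ n → a n ∈ A) ∧ (∀ m n, 1 ≤ m → m < n → a m < a n) ∧ (∀ x ∈ A, ∃ n, 1 ≤ n ∧ a n = x)

/-- `lam` is admissible for `h` at second order: some asymptotic basis `A = {a 1 < a 2 < ⋯}` of
order `h` satisfies `a n = lam * n ^ h + o (n ^ (h - 1))` -/
def Admissible (h : ℕ) (lam : ℝ) : Prop :=
  ∃ (A : Set ℕ) (a : ℕ → ℕ), IsAsymptoticBasis h A ∧ IsEnumeration A a ∧
    (fun n : ℕ => (a n : ℝ) - lam * (n : ℝ) ^ h) =o[Filter.atTop]
      (fun n : ℕ => (n : ℝ) ^ (h - 1))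

/-- For every `h ≥ 2` there is `c > 0` such that for EVERY real `lam` with `0 < lam ≤ c` there is an
asymptotic basis `A = {a 1 < a 2 < ⋯}` of order `h` with `a n = lam * n ^ h + o (n ^ (h - 1))`. -/
theorem result : ∀ h : ℕ, 2 ≤ h → ∃ c : ℝ, 0 < c ∧
    ∀ lam : ℝ, 0 < lam → lam ≤ c → Admissible h lam := by
  intro h hh
  obtain ⟨c, hc, H⟩ := Pool.Agent.Y729.CAS.all_small h hh
  refine ⟨c, hc, fun lam h1 h2 => ?_⟩
  obtain ⟨a, hmono, hbas, hasym⟩ := H lam h1 h2
  obtain ⟨N₀, hN₀⟩ := hbas 1
  refine ⟨{x | ∃ n, 1 ≤ n ∧ a n = x}, a, ⟨N₀, fun N hN => ?_⟩,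
    ⟨fun n hn => ⟨n, hn, rfl⟩, fun m n _ hmn => hmono hmn, fun x hx => hx⟩, hasym⟩
  obtain ⟨f, hf1, hf2⟩ := hN₀ N hN
  exact ⟨fun i => a (f i), fun i => ⟨f i, hf1 i, rfl⟩, hf2.symm⟩

end Pool.Agent.Results.MP_1cb037_nt.AllSmallLambda
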